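import Mathlib
import Pool.Agent.R268.MBasis
import Pool.Agent.R268.NoLUR
import Pool.Agent.Results.MP_810de6_an.LinftyInMBasisSpace

/-!
# MP_ea77cd: a Banach space with an extended M-basis and no equivalent LUR norm
-/

set_option autoImplicit false

open Filter Topology
open scoped ENNReal

namespace Pool.Agent.Results.MP_ea77cd_an.NoLURNorm

open Pool.Agent.R268.MBasis (IsExtendedMBasis)
open Pool.Agent.R268.NoLUR (IsEquivalentNorm IsLUR)
open Pool.Agent.Results.MP_810de6_an.LinftyInMBasisSpace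

universe u

/-- Local uniform convexity of an equivalent norm passes to `ℓ^∞` along an isomorphic embedding. -/
theorem no_lur_of_embeds {𝕜 : Type} [RCLike 𝕜] {E : Type} [NormedAddCommGroup E]
    [NormedSpace 𝕜 E] (J : lp (fun _ : ℕ => 𝕜) ∞ →L[𝕜] E) (c : ℝ) (hc : 0 < c)
    (hJ : ∀ v, c * ‖v‖ ≤ ‖J v‖) (q : Seminorm 𝕜 E) (hq : IsEquivalentNorm q) : ¬ IsLUR q := by
  intro hlur
  obtain ⟨a, b, ha, hb, hab⟩ := hq
  refine Pool.Agent.R268.NoLUR.no_lur (q.comp (J : lp (fun _ : ℕ => 𝕜) ∞ →ₗ[𝕜] E)) ?_ ?_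
  · refine ⟨a * c, b * (‖J‖ + 1), by positivity, ?_, fun x => ⟨?_, ?_⟩⟩
    · have := J.opNorm_nonneg
      positivity
    · rw [mul_assoc]
      exact (mul_le_mul_of_nonneg_left (hJ x) ha.le).trans (hab (J x)).1
    · refine (hab (J x)).2.trans ?_
      rw [mul_assoc]
      refine mul_le_mul_of_nonneg_left ((J.le_opNorm x).trans ?_) hb.le
      exact mul_le_mul_of_nonneg_right (by linarith) (norm_nonneg _)
  · intro x y hx hy h
    have h1 := hlur (J x) (fun n => J (y n)) hx hy (by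
      refine h.congr (fun n => ?_)
      change q (J (y n + x)) = _
      rw [J.map_add])
    refine h1.congr (fun n => ?_)
    change _ = q (J (y n - x))
    rw [J.map_sub]

/-- **Negative answer to Q1.** Over `𝕜 = ℝ` and over `𝕜 = ℂ` there is a Banach space which has an
extended M-basis but has no equivalent locally uniformly convex norm. -/
theorem result (𝕜 : Type) [RCLike 𝕜] :
    ∃ (E : Type) (_ : NormedAddCommGroup E) (_ : NormedSpace 𝕜 E) (_ : CompleteSpace E)
      (I : Type) (x : I → E) (f : I → StrongDual 𝕜 E), IsExtendedMBasis 𝕜 x f ∧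
      ∀ q : Seminorm 𝕜 E, IsEquivalentNorm q → ¬ IsLUR q := by
  obtain ⟨Λ, I, x, f, hxf⟩ := basis_of_injects (𝕜 := 𝕜) injects_linfty
  refine ⟨lp (fun _ : ℕ => 𝕜) ∞ × lp (fun _ : Λ => 𝕜) 1, inferInstance, inferInstance,
    inferInstance, I, x, f, hxf, ?_⟩
  refine no_lur_of_embeds (ContinuousLinearMap.inl 𝕜 _ _) 1 one_pos (fun v => ?_)
  rw [one_mul]
  change ‖v‖ ≤ ‖((v, 0) : lp (fun _ : ℕ => 𝕜) ∞ × lp (fun _ : Λ => 𝕜) 1)‖
  rw [Prod.norm_def]
  exact le_max_left _ _

end Pool.Agent.Results.MP_ea77cd_an.NoLURNorm
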